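import Pool.Agent.L0h11.Aa
import Pool.Agent.L0h11.Lf

/-!
# Tate's conjecture on the pole for almost all diagonal hypersurfaces, all degrees at once

Let `X_(m, c)` be the diagonal hypersurface `c_0 * x_0 ^ m + ... + c_(N-1) * x_(N-1) ^ m = 0` over the
rational numbers, of even dimension `n = N - 2`. In the box of the coefficient vectors `c` with
`0 < |c_i| ≤ B` there are `(2 * B) ^ N` vectors. For all of them, with the exception of at most
`C * B ^ (N / 2 + ε) * Y ^ (1 / 2)` vectors, and for ALL degrees `m ≤ Y` at the same time, the only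
classes in `H ^ n (X_(m, c)) (n / 2)` with trivial Galois action are the multiples of the class of the
intersection of `n / 2` hyperplanes, and the L-function of `H ^ n (X_(m, c))` has at
`s = n / 2 + 1 = N / 2` a pole of order exactly one.
-/

namespace Pool.Agent.Results.MP_058a58_ag.AlmostAllHypersurfaces

open Pool.Agent.L0h11 Filter Topology
open Pool.Agent.H916K (RationalClass)

/-- There is no eigenline with trivial Galois action in the primitive cohomology of the hypersurface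
`∑ c_i * x_i ^ m = 0`, and the Euler product `L (s)` of the middle cohomology, with arbitrary factors
`P_p (p ^ (-s)) ^ (-1)` at the primes of a finite set `S` which contains the prime divisors of `m` and of
the coefficients (with `P_p (p ^ (-N / 2)) ≠ 0`), converges for `re s > N / 2` and has a pole of
order exactly one at `s = N / 2`: there `L (s) * (s - N / 2)` agrees with a function which is analytic
and not zero at `N / 2`. -/
def PoleOfOrderOne (m : ℕ) {N : ℕ} (c : Fin N → ℤ) : Prop :=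
  (∀ M : ℕ, M ∣ m → ∀ b : Fin N → ZMod M, IsLine M b → ¬ RationalClass M (pairs c b)) ∧
  ∀ S : Finset Nat.Primes,
    (∀ p : Nat.Primes, ((p : ℕ) ∣ m ∨ ∃ i, ((p : ℕ) : ℤ) ∣ c i) → p ∈ S) →
    ∀ P : Nat.Primes → Polynomial ℂ,
    (∀ p ∈ S, (P p).eval (((p : ℕ) : ℂ) ^ (-((N / 2 : ℕ) : ℂ))) ≠ 0) →
    (∀ p ∉ S, ∀ s : ℂ, ((N / 2 : ℕ) : ℝ) < s.re → Summable fun k : ℕ =>
      (trace m c (GaloisField p (k + 1)) : ℂ) *
        ((p : ℕ) : ℂ) ^ (-(((k + 1 : ℕ) : ℂ) * s)) / ((k + 1 : ℕ) : ℂ)) ∧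
    (∀ s : ℂ, ((N / 2 : ℕ) : ℝ) < s.re → Multipliable fun p : Nat.Primes =>
      if p ∈ S then ((P p).eval (((p : ℕ) : ℂ) ^ (-s)))⁻¹ else localFactor m c p s) ∧
    ∃ G : ℂ → ℂ, AnalyticAt ℂ G ((N / 2 : ℕ) : ℂ) ∧ G ((N / 2 : ℕ) : ℂ) ≠ 0 ∧
      ∀ᶠ s : ℂ in 𝓝 ((N / 2 : ℕ) : ℂ), ((N / 2 : ℕ) : ℝ) < s.re →
        LFunction m c S P s * (s - ((N / 2 : ℕ) : ℂ)) = G s

theorem result {N : ℕ} (hN : Even N) (hN2 : 2 ≤ N) {ε : ℝ} (hε : 0 < ε) : ∃ C : ℝ, 0 < C ∧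
    ∀ B Y : ℕ, 1 ≤ B →
      {c : Fin N → ℤ | (∀ i, c i ≠ 0 ∧ |c i| ≤ B) ∧
        ∃ m : ℕ, 0 < m ∧ m ≤ Y ∧ ¬ PoleOfOrderOne m c}.Finite ∧
      (Nat.card {c : Fin N → ℤ // (∀ i, c i ≠ 0 ∧ |c i| ≤ B) ∧
        ∃ m : ℕ, 0 < m ∧ m ≤ Y ∧ ¬ PoleOfOrderOne m c} : ℝ) ≤
        C * (B : ℝ) ^ ((N : ℝ) / 2 + ε) * (Y : ℝ) ^ ((1 : ℝ) / 2) := by
  obtain ⟨C, hC, h⟩ := card_exc N hε
  refine ⟨C, hC, fun B Y hB => ?_⟩
  refine h B Y hB {c : Fin N → ℤ | (∀ i, c i ≠ 0 ∧ |c i| ≤ B) ∧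
        ∃ m : ℕ, 0 < m ∧ m ≤ Y ∧ ¬ PoleOfOrderOne m c} (fun c hc => hc.1) ?_
  rintro c ⟨hc, m, hm, hmY, hbad⟩
  have hc0 : ∀ i, c i ≠ 0 := fun i => (hc i).1
  refine le_trans (Nat.le_of_dvd hm (exc_dvd fun p hp h1 => ?_)) hmY
  by_contra hpm
  apply hbad
  have hno : ∀ M : ℕ, M ∣ m → ∀ b : Fin N → ZMod M, IsLine M b → ¬ RationalClass M (pairs c b) :=
    fun M hM b hb => no_line_of_prime hm hN c hc0 hp hpm h1 hM b hb
  refine ⟨hno, fun S hS P hP => ?_⟩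
  have h2 := diag_pole hm hN hN2 c hc0 S hS P hP
  rw [rho_eq_one c hno] at h2
  simp only [pow_one] at h2
  exact h2

end Pool.Agent.Results.MP_058a58_ag.AlmostAllHypersurfaces
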