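import Pool.Agent.L0h11.Lf
import Pool.Agent.L0h11.Alg

/-!
# Tate's conjecture on the pole for diagonal hypersurfaces over the rational numbers

Let `c_0, ..., c_(N-1)` be nonzero integers, `N ≥ 2` even, and let `X` be the diagonal hypersurface
`c_0 * x_0 ^ m + ... + c_(N-1) * x_(N-1) ^ m = 0` of even dimension `n = N - 2`. The theorem computes
the order of the pole of the L-function of `H ^ n (X)` at `s = n / 2 + 1 = N / 2`: it is the rank
`rho m c` of the Tate classes, i.e. one plus the number of Galois orbits of the eigenlines (over the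
field of `m`-th roots of unity) with trivial Galois action. If the dimension is at most `2`, or if it
is `4` and `110` does not divide `m`, then all these lines are algebraic, so that the order of the pole
is the rank of the group of the classes of algebraic cycles over the rational numbers.
-/

namespace Pool.Agent.Results.MP_058a58_ag.DiagonalHypersurfaces

open Pool.Agent.L0h11 Filter Topology
open Pool.Agent.H916K (RationalClass)

theorem result {m N : ℕ} (hm : 0 < m) (hN : Even N) (hN2 : 2 ≤ N) (c : Fin N → ℤ)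
    (hc : ∀ i, c i ≠ 0) (S : Finset Nat.Primes)
    (hS : ∀ p : Nat.Primes, ((p : ℕ) ∣ m ∨ ∃ i, ((p : ℕ) : ℤ) ∣ c i) → p ∈ S)
    (P : Nat.Primes → Polynomial ℂ)
    (hP : ∀ p ∈ S, (P p).eval (((p : ℕ) : ℂ) ^ (-((N / 2 : ℕ) : ℂ))) ≠ 0) :
    -- the Euler product converges for `re s > N / 2`
    (∀ p ∉ S, ∀ s : ℂ, ((N / 2 : ℕ) : ℝ) < s.re → Summable fun k : ℕ =>
      (trace m c (GaloisField p (k + 1)) : ℂ) *
        ((p : ℕ) : ℂ) ^ (-(((k + 1 : ℕ) : ℂ) * s)) / ((k + 1 : ℕ) : ℂ)) ∧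
    (∀ s : ℂ, ((N / 2 : ℕ) : ℝ) < s.re → Multipliable fun p : Nat.Primes =>
      if p ∈ S then ((P p).eval (((p : ℕ) : ℂ) ^ (-s)))⁻¹ else localFactor m c p s) ∧
    -- the order of the pole is `rho m c`
    (∃ G : ℂ → ℂ, AnalyticAt ℂ G ((N / 2 : ℕ) : ℂ) ∧ G ((N / 2 : ℕ) : ℂ) ≠ 0 ∧
      ∀ᶠ s : ℂ in 𝓝 ((N / 2 : ℕ) : ℂ), ((N / 2 : ℕ) : ℝ) < s.re →
        LFunction m c S P s * (s - ((N / 2 : ℕ) : ℂ)) ^ (rho m c) = G s) ∧
    -- all the lines with trivial Galois action are algebraic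
    ((N ≤ 4 ∨ (N = 6 ∧ ¬ 110 ∣ m)) →
      ∀ M : ℕ, M ∣ m → ∀ b : Fin N → ZMod M, IsLine M b → RationalClass M (pairs c b) →
        AlgebraicLine M b) := by
  obtain ⟨h1, h2, h3⟩ := diag_pole hm hN hN2 c hc S hS P hP
  exact ⟨h1, h2, h3, fun hcov M hM b hb hR =>
    algebraic_of_rational hm hM hN hN2 (hcov.imp_right Or.inl) c hc b hb hR⟩

end Pool.Agent.Results.MP_058a58_ag.DiagonalHypersurfaces
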