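import Pool.Agent.L0h11.Dn

/-!
# Tate's conjecture on the pole for the hypersurfaces given by invertible polynomials over `ℚ`

`X` is a smooth hypersurface of even dimension `n = N - 2` and degree `m ≥ 3` over `ℚ`, given by an
invertible polynomial which is not diagonal (`Delsarte`): a sum of chains and loops, in separate
variables, with arbitrary nonzero integral coefficients (for instance the Klein hypersurfaces
`x_0 ^ (m - 1) * x_1 + x_1 ^ (m - 1) * x_2 + ... + x_(N-1) ^ (m - 1) * x_0 = 0`). The theorem computes the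
order of the pole of the L-function of `H ^ n (X)` at `s = n / 2 + 1 = N / 2`: it is the number `X.rho`
of the Galois orbits of lines in `H ^ n (X)(n / 2)` with trivial Galois action. The lines with empty
support (`2 ^ a` of them for `a` loops if all blocks have even length, otherwise none) are spanned
by the classes of linear subspaces of `X`. The others with trivial Galois action are algebraic if the
support `J` has at most four elements, or if it has six elements and the level `M` is not a multiple of
`110`, or if `M` is a `GoodDegree` or a `PoleDegree`: `X` contains cones over the hypersurface `X_J` in the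
variables of `J`, which is dominated by a Fermat variety, and the line of the Fermat variety is
algebraic. So the order of the pole is the rank of the group of the classes of algebraic cycles of
codimension `n / 2` for all these surfaces (`N = 4`), for all these fourfolds with `¬ 110 ∣ X.D`
(`N = 6`), and in all dimensions if the levels of the lines are such degrees.
-/

namespace Pool.Agent.Results.MP_058a58_ag.InvertibleHypersurfaces

open Pool.Agent.L0h11 Filter Topology
open Pool.Agent.H916R2 (GoodDegree)
open Pool.Agent.H916K (RationalClass)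
open Pool.Agent.Results.MP_058a58_ag.DiagonalPole (PoleDegree)

theorem result (X : Delsarte) (S : Finset Nat.Primes) (hS : ∀ p, X.Bad p → p ∈ S)
    (P : Nat.Primes → Polynomial ℂ)
    (hP : ∀ p ∈ S, (P p).eval (((p : ℕ) : ℂ) ^ (-((X.N / 2 : ℕ) : ℂ))) ≠ 0) :
    -- the Euler product converges for `re s > N / 2`
    (∀ p ∉ S, ∀ s : ℂ, ((X.N / 2 : ℕ) : ℝ) < s.re → Summable fun k : ℕ =>
      (X.trace (GaloisField p (k + 1)) : ℂ) *
        ((p : ℕ) : ℂ) ^ (-(((k + 1 : ℕ) : ℂ) * s)) / ((k + 1 : ℕ) : ℂ)) ∧
    (∀ s : ℂ, ((X.N / 2 : ℕ) : ℝ) < s.re → Multipliable fun p : Nat.Primes =>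
      if p ∈ S then ((P p).eval (((p : ℕ) : ℂ) ^ (-s)))⁻¹ else X.localFactor p s) ∧
    -- the order of the pole is `X.rho`
    (∃ G : ℂ → ℂ, AnalyticAt ℂ G ((X.N / 2 : ℕ) : ℂ) ∧ G ((X.N / 2 : ℕ) : ℂ) ≠ 0 ∧
      ∀ᶠ s : ℂ in 𝓝 ((X.N / 2 : ℕ) : ℂ), ((X.N / 2 : ℕ) : ℝ) < s.re →
        X.LFunction S P s * (s - ((X.N / 2 : ℕ) : ℂ)) ^ X.rho = G s) ∧
    -- the lines with trivial Galois action are algebraic
    (∀ J : Finset X.Idx, X.mult J ≠ 0 → J.Nonempty → ∀ M : ℕ, M ∣ X.D →
      (J.card ≤ 4 ∨ (J.card = 6 ∧ ¬ 110 ∣ M) ∨ GoodDegree M ∨ PoleDegree M) →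
      ∀ b : {x // x ∈ J} → ZMod M, X.IsLine J M b → RationalClass M (X.pairs b) →
        X.AlgebraicLine M b) := by
  obtain ⟨h1, h2, h3⟩ := X.pole S hS P hP
  exact ⟨h1, h2, h3, fun J hJ hJ0 M hM hcov b hb hR => X.algebraic J hJ hJ0 M hcov hM b hb hR⟩

end Pool.Agent.Results.MP_058a58_ag.InvertibleHypersurfaces
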