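import Pool.Agent.L0h11.Alg2

/-!
# Tate's conjecture on the pole for products of diagonal hypersurfaces over the rational numbers

`X` is the product of diagonal hypersurfaces `X_j` over `ℚ` of arbitrary degrees `m_j` and dimensions
`N_j - 2`, with arbitrary nonzero integral coefficients (`DiagProduct`). The theorem computes, for
every `k`, the order of the pole of the L-function of `H ^ (2 * k) (X)` at `s = k + 1`: it is the number
`X.rho k` of the Galois orbits of eigenlines of `H ^ (2 * k) (X)(k)` with trivial Galois action. If the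
least common multiple of the degrees is a `GoodDegree` (for instance if all its prime factors are in
`{2, 3, 5}`) or a `PoleDegree`, then all these lines are algebraic, so that the order of the pole is
the rank of the group of the classes of the algebraic cycles of codimension `k` on `X`.
-/

namespace Pool.Agent.Results.MP_058a58_ag.ProductsOfDiagonalHypersurfaces

open Pool.Agent.L0h11 Filter Topology
open Pool.Agent.H916R2 (GoodDegree)
open Pool.Agent.H916K (RationalClass)
open Pool.Agent.Results.MP_058a58_ag.DiagonalPole (PoleDegree)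

theorem result (X : DiagProduct) (k : ℕ) (S : Finset Nat.Primes) (hS : ∀ p, X.Bad p → p ∈ S)
    (P : Nat.Primes → Polynomial ℂ)
    (hP : ∀ p ∈ S, (P p).eval (((p : ℕ) : ℂ) ^ (-((k + 1 : ℕ) : ℂ))) ≠ 0) :
    -- the Euler product converges for `re s > k + 1`
    (∀ p ∉ S, ∀ s : ℂ, ((k + 1 : ℕ) : ℝ) < s.re → Summable fun l : ℕ =>
      (X.trace k (GaloisField p (l + 1)) : ℂ) *
        ((p : ℕ) : ℂ) ^ (-(((l + 1 : ℕ) : ℂ) * s)) / ((l + 1 : ℕ) : ℂ)) ∧
    (∀ s : ℂ, ((k + 1 : ℕ) : ℝ) < s.re → Multipliable fun p : Nat.Primes =>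
      if p ∈ S then ((P p).eval (((p : ℕ) : ℂ) ^ (-s)))⁻¹ else X.localFactor k p s) ∧
    -- the order of the pole is `X.rho k`
    (∃ G : ℂ → ℂ, AnalyticAt ℂ G ((k + 1 : ℕ) : ℂ) ∧ G ((k + 1 : ℕ) : ℂ) ≠ 0 ∧
      ∀ᶠ s : ℂ in 𝓝 ((k + 1 : ℕ) : ℂ), ((k + 1 : ℕ) : ℝ) < s.re →
        X.LFunction k S P s * (s - ((k + 1 : ℕ) : ℂ)) ^ (X.rho k) = G s) ∧
    -- all the lines with trivial Galois action are algebraic
    ((GoodDegree X.lcm ∨ PoleDegree X.lcm) → ∀ J : Finset (Fin X.r), X.mult J k ≠ 0 →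
      ∀ M : ℕ, M ∣ X.lcm → ∀ b : X.Idx J → ZMod M, X.IsLine J M b → RationalClass M (X.pairs b) →
        X.AlgebraicLine M b) := by
  obtain ⟨h1, h2, h3⟩ := X.pole k S hS P hP
  exact ⟨h1, h2, h3, fun hcov J hJ M hM b hb hR => X.algebraic hcov k J hJ M hM b hb hR⟩

end Pool.Agent.Results.MP_058a58_ag.ProductsOfDiagonalHypersurfaces
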